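import Pool.Agent.helper19.HF.SpecA

/-!
# Project HF, row APL: almost periods (Croot and Sisask, by the pigeonhole principle)

Proof: see the docstring of `APL_stmt` in `Pool/Agent/helper19/HF/SpecA.lean`. We sum over the `u : Fin m → S` (functions with values in the subtype) and use the window
`[-3 R, 3 R]` instead of the vanishing of the terms outside `(-R, R)`.
-/

set_option autoImplicit false

namespace Pool.Agent.HF

open Finset

lemma APL_split {α : Type} [Fintype α] [DecidableEq α] (m : ℕ) (F : (Fin (m + 1) → α) → ℝ) :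
    ∑ u : Fin (m + 1) → α, F u = ∑ v : α, ∑ u : Fin m → α, F (Fin.cons v u) := by
  rw [← Fintype.sum_prod_type' (f := fun (v : α) (u : Fin m → α) => F (Fin.cons v u))]
  exact (Fintype.sum_equiv (Fin.consEquiv (fun _ : Fin (m + 1) => α)) _ _ (fun _ => rfl)).symm

lemma APL_var {α : Type} [Fintype α] [DecidableEq α] (h : α → ℝ) (N : ℝ) (h0 : ∑ v, h v = 0) (hN : ∀ v, (h v) ^ 2 ≤ N) :
    ∀ m : ℕ, ∑ u : Fin m → α, (∑ i, h (u i)) ^ 2 ≤ m * (Fintype.card α : ℝ) ^ m * N := by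
  intro m
  induction m with
  | zero => simp
  | succ m ih =>
    rw [APL_split]
    have h1 : ∀ v : α, ∑ u : Fin m → α, (∑ i, h ((Fin.cons v u : Fin (m + 1) → α) i)) ^ 2 =
        (Fintype.card α : ℝ) ^ m * h v ^ 2 + h v * (2 * ∑ u : Fin m → α, ∑ i, h (u i)) + ∑ u : Fin m → α, (∑ i, h (u i)) ^ 2 := by
      intro v
      have h2 : ∀ u : Fin m → α, (∑ i, h ((Fin.cons v u : Fin (m + 1) → α) i)) ^ 2 =
          h v ^ 2 + h v * (2 * ∑ i, h (u i)) + (∑ i, h (u i)) ^ 2 := by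
        intro u
        rw [Fin.sum_univ_succ]
        simp only [Fin.cons_zero, Fin.cons_succ]
        ring
      rw [Finset.sum_congr rfl (fun u _ => h2 u), Finset.sum_add_distrib, Finset.sum_add_distrib, ← Finset.mul_sum, ← Finset.mul_sum]
      simp
    rw [Finset.sum_congr rfl (fun v _ => h1 v), Finset.sum_add_distrib, Finset.sum_add_distrib, ← Finset.sum_mul, h0, ← Finset.mul_sum, zero_mul,
      add_zero, Finset.sum_const, nsmul_eq_mul, Finset.card_univ]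
    have h3 : ∑ v, h v ^ 2 ≤ (Fintype.card α : ℝ) * N := by
      have h4 := Finset.sum_le_card_nsmul Finset.univ (fun v => h v ^ 2) N (fun v _ => hN v)
      rw [nsmul_eq_mul, Finset.card_univ] at h4
      exact h4
    have h4 : (0 : ℝ) ≤ (Fintype.card α : ℝ) ^ m := by positivity
    have h5 : (0 : ℝ) ≤ (Fintype.card α : ℝ) := by positivity
    have h6 := mul_le_mul_of_nonneg_left h3 h4
    have h7 := mul_le_mul_of_nonneg_left ih h5
    push_cast
    rw [pow_succ]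
    nlinarith

/-- the indicator function of `S'` -/
def APL_g (S' : Finset ℕ) (z : ℤ) : ℝ := if ∃ v ∈ S', (v : ℤ) = z then 1 else 0

lemma APL_g_range (S' : Finset ℕ) (z : ℤ) : 0 ≤ APL_g S' z ∧ APL_g S' z ≤ 1 := by
  unfold APL_g
  split_ifs <;> constructor <;> norm_num

lemma APL_ct (S S' : Finset ℕ) (d : ℤ) : (ct S S' d : ℝ) = ∑ v : {x // x ∈ S}, APL_g S' (((v : ℕ) : ℤ) + d) := by
  rw [Finset.sum_coe_sort S (fun v => APL_g S' ((v : ℤ) + d))]
  unfold ct APL_g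
  rw [Finset.card_filter]
  push_cast
  rfl

/-- the deviation -/
noncomputable def APL_h (S S' : Finset ℕ) (d : ℤ) (v : {x // x ∈ S}) : ℝ := #S * APL_g S' (((v : ℕ) : ℤ) + d) - ct S S' d

lemma APL_h_sum (S S' : Finset ℕ) (d : ℤ) : ∑ v, APL_h S S' d v = 0 := by
  unfold APL_h
  rw [Finset.sum_sub_distrib, ← Finset.mul_sum, ← APL_ct, Finset.sum_const, nsmul_eq_mul, Finset.card_univ, Fintype.card_coe]
  ring

lemma APL_h_sq (S S' : Finset ℕ) (d : ℤ) (v : {x // x ∈ S}) : APL_h S S' d v ^ 2 ≤ (#S : ℝ) ^ 2 := by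
  have h1 := APL_g_range S' (((v : ℕ) : ℤ) + d)
  have h2 : (0 : ℝ) ≤ ct S S' d := by positivity
  have h3 : (ct S S' d : ℝ) ≤ #S := by
    have : ct S S' d ≤ #S := Finset.card_filter_le _ _
    exact_mod_cast this
  have h4 : (0 : ℝ) ≤ #S := by positivity
  have h5 : (#S : ℝ) * APL_g S' (((v : ℕ) : ℤ) + d) ≤ #S := by nlinarith
  have h6 : 0 ≤ (#S : ℝ) * APL_g S' (((v : ℕ) : ℤ) + d) := mul_nonneg h4 h1.1
  unfold APL_h
  exact sq_le_sq' (by linarith) (by linarith)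

/-- the total deviation of a sample -/
noncomputable def APL_P (S S' : Finset ℕ) (D : Finset ℤ) {m : ℕ} (u : Fin m → {x // x ∈ S}) : ℝ := ∑ d ∈ D, (∑ i, APL_h S S' d (u i)) ^ 2

lemma APL_P_nonneg (S S' : Finset ℕ) (D : Finset ℤ) {m : ℕ} (u : Fin m → {x // x ∈ S}) : 0 ≤ APL_P S S' D u :=
  Finset.sum_nonneg (fun _ _ => sq_nonneg _)

lemma APL_tot (S S' : Finset ℕ) (D : Finset ℤ) (m : ℕ) :
    ∑ u : Fin m → {x // x ∈ S}, APL_P S S' D u ≤ #D * (m * (#S : ℝ) ^ m * (#S : ℝ) ^ 2) := by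
  unfold APL_P
  rw [Finset.sum_comm]
  have h1 : ∀ d ∈ D, ∑ u : Fin m → {x // x ∈ S}, (∑ i, APL_h S S' d (u i)) ^ 2 ≤ m * (#S : ℝ) ^ m * (#S : ℝ) ^ 2 := by
    intro d _
    have h2 := APL_var (APL_h S S' d) ((#S : ℝ) ^ 2) (APL_h_sum S S' d) (APL_h_sq S S' d) m
    rw [Fintype.card_coe] at h2
    exact h2
  have h2 := Finset.sum_le_card_nsmul D _ _ h1
  rw [nsmul_eq_mul] at h2
  exact h2

/-- at least half of the samples are good -/
lemma APL_good (S S' : Finset ℕ) (D : Finset ℤ) (m : ℕ) (hS : 1 ≤ #S) (hD : 1 ≤ #D) (hm : 1 ≤ m) :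
    (#S : ℝ) ^ m / 2 ≤ (#{u : Fin m → {x // x ∈ S} | APL_P S S' D u ≤ 2 * (#D * (m * (#S : ℝ) ^ 2))} : ℝ) := by
  classical
  have h1 := APL_tot S S' D m
  set B : ℝ := 2 * (#D * (m * (#S : ℝ) ^ 2)) with hB
  have hB0 : 0 < B := by
    have h2 : (0 : ℝ) < #S := by exact_mod_cast hS
    have h3 : (0 : ℝ) < #D := by exact_mod_cast hD
    have h4 : (0 : ℝ) < m := by exact_mod_cast hm
    positivity
  have h2 : ∀ u : Fin m → {x // x ∈ S}, (if ¬ APL_P S S' D u ≤ B then B else 0) ≤ APL_P S S' D u := by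
    intro u
    have h3 := APL_P_nonneg S S' D u
    by_cases h4 : APL_P S S' D u ≤ B
    · rw [if_neg (not_not.mpr h4)]
      exact h3
    · rw [if_pos h4]
      exact (not_le.mp h4).le
  have h3 := Finset.sum_le_sum (s := Finset.univ) (fun u _ => h2 u)
  rw [← Finset.sum_filter, Finset.sum_const, nsmul_eq_mul] at h3
  have h4 := Finset.card_filter_add_card_filter_not (s := (Finset.univ : Finset (Fin m → {x // x ∈ S}))) (fun u => APL_P S S' D u ≤ B)
  rw [Finset.card_univ, Fintype.card_fun, Fintype.card_coe, Fintype.card_fin] at h4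
  have h5 : (#{u : Fin m → {x // x ∈ S} | APL_P S S' D u ≤ B} : ℝ) + (#{u : Fin m → {x // x ∈ S} | ¬ APL_P S S' D u ≤ B} : ℝ) = (#S : ℝ) ^ m := by
    exact_mod_cast h4
  have h6 : (#{u : Fin m → {x // x ∈ S} | ¬ APL_P S S' D u ≤ B} : ℝ) * B ≤ ((#S : ℝ) ^ m / 2) * B := by
    refine le_trans h3 (le_trans h1 (le_of_eq ?_))
    rw [hB]
    ring
  have h7 := le_of_mul_le_mul_right h6 hB0
  linarith

lemma APL_rel (S S' : Finset ℕ) {m : ℕ} (u u' : Fin m → {x // x ∈ S}) (z : ℤ) (h : ∀ i, ((u i : ℕ) : ℤ) = ((u' i : ℕ) : ℤ) + z) (d : ℤ) :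
    (∑ i, APL_h S S' d (u' i)) - (∑ i, APL_h S S' (d - z) (u i)) = m * ((ct S S' (d - z) : ℝ) - ct S S' d) := by
  rw [← Finset.sum_sub_distrib]
  have h1 : ∀ i, APL_h S S' d (u' i) - APL_h S S' (d - z) (u i) = (ct S S' (d - z) : ℝ) - ct S S' d := by
    intro i
    unfold APL_h
    rw [h i]
    have h2 : ((u' i : ℕ) : ℤ) + z + (d - z) = ((u' i : ℕ) : ℤ) + d := by ring
    rw [h2]
    ring
  rw [Finset.sum_congr rfl (fun i _ => h1 i), Finset.sum_const, nsmul_eq_mul, Finset.card_univ, Fintype.card_fin]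

theorem APL : APL_stmt := by
  classical
  intro σ κ hσ hκ
  obtain ⟨m, hm⟩ := exists_nat_ge (max 1 (56 / κ))
  have hm1 : 1 ≤ m := by
    have : (1 : ℝ) ≤ m := le_trans (le_max_left _ _) hm
    exact_mod_cast this
  have hmκ : 56 ≤ κ * m := by
    have h1 : 56 / κ ≤ m := le_trans (le_max_right _ _) hm
    rw [div_le_iff₀ hκ] at h1
    linarith
  obtain ⟨Q, hQ⟩ := exists_nat_ge (max 1 (2 * (2 / σ) ^ m))
  have hQ1 : 1 ≤ Q := by
    have : (1 : ℝ) ≤ Q := le_trans (le_max_left _ _) hQ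
    exact_mod_cast this
  have hQ2 : 2 * (2 / σ) ^ m ≤ Q := le_trans (le_max_right _ _) hQ
  refine ⟨Q, hQ1, ?_⟩
  intro p R S S' hR hpQ hS hS' hSσ
  have hR0 : (0 : ℝ) < R := by exact_mod_cast hR
  have hS1 : 1 ≤ #S := by
    have h1 : (0 : ℝ) < #S := lt_of_lt_of_le (mul_pos hσ hR0) hSσ
    exact_mod_cast h1
  have hSR : #S ≤ R := by
    have h1 := Finset.card_le_card hS
    rwa [Finset.card_range] at h1
  set D : Finset ℤ := Icc (-(3 * R : ℤ)) (3 * R) with hD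
  have hDc : #D = 6 * R + 1 := by
    rw [hD, Int.card_Icc]
    omega
  have hgood := APL_good S S' D m hS1 (by omega) hm1
  set G : Finset (Fin m → {x // x ∈ S}) := {u : Fin m → {x // x ∈ S} | APL_P S S' D u ≤ 2 * (#D * (m * (#S : ℝ) ^ 2))} with hG
  -- pigeonhole
  have hpig : ∃ a ∈ (range (Q + 1)) ×ˢ G, ∃ b ∈ (range (Q + 1)) ×ˢ G, a ≠ b ∧
      (fun c : ℕ × (Fin m → {x // x ∈ S}) => (fun i : Fin m => (c.2 i : ℕ) + c.1 * p)) a =
      (fun c : ℕ × (Fin m → {x // x ∈ S}) => (fun i : Fin m => (c.2 i : ℕ) + c.1 * p)) b := by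
    refine Finset.exists_ne_map_eq_of_card_lt_of_maps_to (t := Fintype.piFinset (fun _ : Fin m => range (2 * R))) ?_ ?_
    · rw [Fintype.card_piFinset]
      simp only [Finset.card_range, Finset.prod_const, Finset.card_univ, Fintype.card_fin, Finset.card_product]
      have h1 : (2 * (R : ℝ)) ^ m < (Q + 1) * (#G : ℝ) := by
        have h2 : (2 * (R : ℝ)) ^ m = (2 / σ) ^ m * (σ * R) ^ m := by
          rw [← mul_pow]
          congr 1
          field_simp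
        have h3 : (σ * R) ^ m ≤ (#S : ℝ) ^ m := pow_le_pow_left₀ (by positivity) hSσ m
        have h4 : (0 : ℝ) < (#S : ℝ) ^ m := by
          have : (0 : ℝ) < #S := by exact_mod_cast hS1
          positivity
        have h5 : (0 : ℝ) ≤ (2 / σ) ^ m := by positivity
        calc (2 * (R : ℝ)) ^ m = (2 / σ) ^ m * (σ * R) ^ m := h2
          _ ≤ (2 / σ) ^ m * (#S : ℝ) ^ m := mul_le_mul_of_nonneg_left h3 h5
          _ = (2 * (2 / σ) ^ m) * ((#S : ℝ) ^ m / 2) := by ring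
          _ ≤ Q * ((#S : ℝ) ^ m / 2) := mul_le_mul_of_nonneg_right hQ2 (by positivity)
          _ < (Q + 1) * ((#S : ℝ) ^ m / 2) := by nlinarith
          _ ≤ (Q + 1) * (#G : ℝ) := mul_le_mul_of_nonneg_left hgood (by positivity)
      exact_mod_cast h1
    · intro c hc
      obtain ⟨hc1, _⟩ := Finset.mem_product.mp (Finset.mem_coe.mp hc)
      refine Finset.mem_coe.mpr (Fintype.mem_piFinset.mpr ?_)
      intro i
      refine Finset.mem_range.mpr ?_
      have h1 := Finset.mem_range.mp (hS (c.2 i).2)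
      have h2 : c.1 ≤ Q := Nat.lt_succ_iff.mp (Finset.mem_range.mp hc1)
      have h3 : c.1 * p ≤ Q * p := Nat.mul_le_mul_right p h2
      have h4 : Q * p ≤ R := by
        rw [Nat.mul_comm]
        exact hpQ
      show (c.2 i : ℕ) + c.1 * p < 2 * R
      omega
  obtain ⟨a, ha, b, hb, hab, heq⟩ := hpig
  have hkey : ∀ a ∈ (range (Q + 1)) ×ˢ G, ∀ b ∈ (range (Q + 1)) ×ˢ G,
      (∀ i : Fin m, (a.2 i : ℕ) + a.1 * p = (b.2 i : ℕ) + b.1 * p) → a.1 < b.1 →
      ∃ q : ℕ, 1 ≤ q ∧ q ≤ Q ∧ ∑ d ∈ Icc (-(2 * R : ℤ)) (2 * R), ((ct S S' d : ℝ) - ct S S' (d - p * q)) ^ 2 ≤ κ * (R : ℝ) ^ 3 := by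
    intro a ha b hb hE hlt
    obtain ⟨ha1, ha2⟩ := Finset.mem_product.mp ha
    obtain ⟨hb1, hb2⟩ := Finset.mem_product.mp hb
    have hb1' : b.1 ≤ Q := Nat.lt_succ_iff.mp (Finset.mem_range.mp hb1)
    have hgA := (Finset.mem_filter.mp ha2).2
    have hgB := (Finset.mem_filter.mp hb2).2
    refine ⟨b.1 - a.1, by omega, by omega, ?_⟩
    set q : ℕ := b.1 - a.1 with hq
    have hrel : ∀ i, ((a.2 i : ℕ) : ℤ) = ((b.2 i : ℕ) : ℤ) + (p : ℤ) * q := by
      intro i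
      have h1 := hE i
      have h2 : ((a.2 i : ℕ) : ℤ) + a.1 * p = ((b.2 i : ℕ) : ℤ) + b.1 * p := by exact_mod_cast h1
      have h3 : (q : ℤ) = (b.1 : ℤ) - a.1 := by
        rw [hq]
        omega
      rw [h3]
      linarith
    have hqp : p * q ≤ R := by
      refine le_trans (Nat.mul_le_mul_left p ?_) hpQ
      omega
    have hpq' : (p : ℤ) * q ≤ R := by exact_mod_cast hqp
    have hpq0 : (0 : ℤ) ≤ (p : ℤ) * q := by positivity
    have h1 : ∀ d : ℤ, (m : ℝ) ^ 2 * ((ct S S' d : ℝ) - ct S S' (d - p * q)) ^ 2 ≤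
        2 * (∑ i, APL_h S S' d (b.2 i)) ^ 2 + 2 * (∑ i, APL_h S S' (d - p * q) (a.2 i)) ^ 2 := by
      intro d
      have h2 := APL_rel S S' a.2 b.2 ((p : ℤ) * q) hrel d
      have h3 : (m : ℝ) ^ 2 * ((ct S S' d : ℝ) - ct S S' (d - p * q)) ^ 2 =
          ((∑ i, APL_h S S' d (b.2 i)) - (∑ i, APL_h S S' (d - p * q) (a.2 i))) ^ 2 := by
        rw [h2]
        ring
      rw [h3]
      nlinarith [sq_nonneg ((∑ i, APL_h S S' d (b.2 i)) + (∑ i, APL_h S S' (d - p * q) (a.2 i)))]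
    have h2 : (m : ℝ) ^ 2 * ∑ d ∈ Icc (-(2 * R : ℤ)) (2 * R), ((ct S S' d : ℝ) - ct S S' (d - p * q)) ^ 2 ≤
        2 * APL_P S S' D b.2 + 2 * APL_P S S' D a.2 := by
      rw [Finset.mul_sum]
      refine le_trans (Finset.sum_le_sum (fun d _ => h1 d)) ?_
      rw [Finset.sum_add_distrib, ← Finset.mul_sum, ← Finset.mul_sum]
      refine add_le_add (mul_le_mul_of_nonneg_left ?_ (by norm_num)) (mul_le_mul_of_nonneg_left ?_ (by norm_num))
      · refine Finset.sum_le_sum_of_subset_of_nonneg ?_ (fun _ _ _ => sq_nonneg _)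
        intro d hd
        have hd' := Finset.mem_Icc.mp hd
        exact Finset.mem_Icc.mpr ⟨by omega, by omega⟩
      · have h3 : ∑ d ∈ Icc (-(2 * R : ℤ)) (2 * R), (∑ i, APL_h S S' (d - p * q) (a.2 i)) ^ 2 =
            ∑ d ∈ (Icc (-(2 * R : ℤ)) (2 * R)).image (fun d => d - (p : ℤ) * q), (∑ i, APL_h S S' d (a.2 i)) ^ 2 := by
          rw [Finset.sum_image]
          intro x _ y _ hxy
          have hxy' : x - (p : ℤ) * q = y - (p : ℤ) * q := hxy
          omega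
        rw [h3]
        refine Finset.sum_le_sum_of_subset_of_nonneg ?_ (fun _ _ _ => sq_nonneg _)
        intro d hd
        obtain ⟨x, hx, hxd⟩ := Finset.mem_image.mp hd
        have hx' := Finset.mem_Icc.mp hx
        have hxd' : x - (p : ℤ) * q = d := hxd
        exact Finset.mem_Icc.mpr ⟨by omega, by omega⟩
    have hSR' : (#S : ℝ) ≤ R := by exact_mod_cast hSR
    have hR1 : (1 : ℝ) ≤ R := by exact_mod_cast hR
    have hm0 : (0 : ℝ) < m := by exact_mod_cast hm1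
    have h3 : 2 * ((#D : ℝ) * (m * (#S : ℝ) ^ 2)) ≤ 14 * (m * (R : ℝ) ^ 3) := by
      have h4 : (#D : ℝ) ≤ 7 * R := by
        rw [hDc]
        push_cast
        linarith
      have h5 : (#S : ℝ) ^ 2 ≤ (R : ℝ) ^ 2 := pow_le_pow_left₀ (by positivity) hSR' 2
      have h6 : (m : ℝ) * (#S : ℝ) ^ 2 ≤ m * (R : ℝ) ^ 2 := mul_le_mul_of_nonneg_left h5 hm0.le
      have h7 : (#D : ℝ) * (m * (#S : ℝ) ^ 2) ≤ (7 * R) * (m * (R : ℝ) ^ 2) := mul_le_mul h4 h6 (by positivity) (by positivity)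
      calc 2 * ((#D : ℝ) * (m * (#S : ℝ) ^ 2)) ≤ 2 * ((7 * R) * (m * (R : ℝ) ^ 2)) := by linarith
        _ = 14 * (m * (R : ℝ) ^ 3) := by ring
    have h4 : (m : ℝ) ^ 2 * ∑ d ∈ Icc (-(2 * R : ℤ)) (2 * R), ((ct S S' d : ℝ) - ct S S' (d - p * q)) ^ 2 ≤
        (m : ℝ) ^ 2 * (κ * (R : ℝ) ^ 3) := by
      have h5 : 56 * (m * (R : ℝ) ^ 3) ≤ (κ * m) * (m * (R : ℝ) ^ 3) := mul_le_mul_of_nonneg_right hmκ (by positivity)
      calc (m : ℝ) ^ 2 * ∑ d ∈ Icc (-(2 * R : ℤ)) (2 * R), ((ct S S' d : ℝ) - ct S S' (d - p * q)) ^ 2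
          ≤ 2 * APL_P S S' D b.2 + 2 * APL_P S S' D a.2 := h2
        _ ≤ 56 * (m * (R : ℝ) ^ 3) := by linarith
        _ ≤ (κ * m) * (m * (R : ℝ) ^ 3) := h5
        _ = (m : ℝ) ^ 2 * (κ * (R : ℝ) ^ 3) := by ring
    exact le_of_mul_le_mul_left h4 (by positivity)
  have hE : ∀ i : Fin m, (a.2 i : ℕ) + a.1 * p = (b.2 i : ℕ) + b.1 * p := fun i => congrFun heq i
  rcases lt_trichotomy a.1 b.1 with hlt | heq1 | hgt
  · exact hkey a ha b hb hE hlt
  · exfalso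
    apply hab
    refine Prod.ext heq1 ?_
    funext i
    have h1 := hE i
    rw [heq1] at h1
    exact Subtype.ext (by omega)
  · exact hkey b hb a ha (fun i => (hE i).symm) hgt

end Pool.Agent.HF
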