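import Pool.Agent.helper19.HF.SpecA

/-!
# Project HF, row LRA: popular differences on progressions, from PPS

Proof: see the docstring of `LRA_stmt` in `Pool/Agent/helper19/HF/SpecA.lean`.
-/

set_option autoImplicit false

namespace Pool.Agent.HF

open Finset

/-- the fibre of `S` over `s` -/
def LRA_A (p q : ℕ) (S : Finset ℕ) (s : ℕ) : Finset ℕ := {x ∈ range p | s + q * x ∈ S}

lemma LRA_A_sub (p q : ℕ) (S : Finset ℕ) (s : ℕ) : LRA_A p q S s ⊆ range p := Finset.filter_subset _ _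

lemma LRA_cnt (T S S' : Finset ℕ) (p q : ℕ) (δ : ℤ) (P : ℕ → ℕ → Prop) [∀ s x, Decidable (P s x)]
    (h : ∀ s ∈ T, ∀ x, P s x → s + q * x ∈ S ∧ ∃ v ∈ S', (v : ℤ) = ((s + q * x : ℕ) : ℤ) + δ) :
    ∑ s ∈ T, #{x ∈ range p | P s x} ≤ p * ct S S' δ := by
  classical
  have h1 : ∑ s ∈ T, #{x ∈ range p | P s x} = ∑ x ∈ range p, #{s ∈ T | P s x} :=
    Finset.sum_card_bipartiteAbove_eq_sum_card_bipartiteBelow _
  rw [h1]
  have h2 : ∀ x ∈ range p, #{s ∈ T | P s x} ≤ ct S S' δ := by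
    intro x _
    unfold ct
    refine Finset.card_le_card_of_injOn (fun s => s + q * x) ?_ ?_
    · intro s hs
      have hs' := Finset.mem_filter.mp (Finset.mem_coe.mp hs)
      obtain ⟨h3, h4⟩ := h s hs'.1 x hs'.2
      exact Finset.mem_coe.mpr (Finset.mem_filter.mpr ⟨h3, h4⟩)
    · intro s _ s' _ hss
      simpa using hss
  have h3 := Finset.sum_le_card_nsmul (range p) _ _ h2
  simpa using h3

lemma LRA_rd (p q d : ℕ) (S S' T : Finset ℕ) (w : ℤ) (hT : ∀ s ∈ T, 0 ≤ (s : ℤ) + w) :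
    ∑ s ∈ T, rd p (LRA_A p q S s) (LRA_A p q S' ((s : ℤ) + w).toNat) d ≤
      p * ct S S' (w + q * (d : ℕ)) + p * ct S S' (w + q * (d : ℕ) - q * p) := by
  classical
  have h1 := LRA_cnt T S S' p q (w + q * (d : ℕ))
    (fun s x => s + q * x ∈ S ∧ ((s : ℤ) + w).toNat + q * (x + d) ∈ S') (by
      intro s hs x hx
      refine ⟨hx.1, _, hx.2, ?_⟩
      have h0 := Int.toNat_of_nonneg (hT s hs)
      push_cast
      rw [h0]
      ring)
  have h2 := LRA_cnt T S S' p q (w + q * (d : ℕ) - q * p)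
    (fun s x => s + q * x ∈ S ∧ ∃ y, y + p = x + d ∧ ((s : ℤ) + w).toNat + q * y ∈ S') (by
      intro s hs x hx
      obtain ⟨hx1, y, hy, hx2⟩ := hx
      refine ⟨hx1, _, hx2, ?_⟩
      have h0 := Int.toNat_of_nonneg (hT s hs)
      have h3 : (y : ℤ) + p = x + d := by exact_mod_cast hy
      have h4 : (y : ℤ) = x + d - p := by linarith
      push_cast
      rw [h0, h4]
      ring)
  refine le_trans ?_ (Nat.add_le_add h1 h2)
  rw [← Finset.sum_add_distrib]
  refine Finset.sum_le_sum ?_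
  intro s _
  unfold rd
  have h5 : ({z ∈ (LRA_A p q S s) ×ˢ (LRA_A p q S' ((s : ℤ) + w).toNat) | z.2 = z.1 + d ∨ z.2 + p = z.1 + d} : Finset (ℕ × ℕ)) ⊆
      ({z ∈ (LRA_A p q S s) ×ˢ (LRA_A p q S' ((s : ℤ) + w).toNat) | z.2 = z.1 + d} : Finset (ℕ × ℕ)) ∪
      ({z ∈ (LRA_A p q S s) ×ˢ (LRA_A p q S' ((s : ℤ) + w).toNat) | z.2 + p = z.1 + d} : Finset (ℕ × ℕ)) := by
    intro z hz
    rw [Finset.mem_union, Finset.mem_filter, Finset.mem_filter]
    rw [Finset.mem_filter] at hz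
    rcases hz.2 with h | h
    · exact Or.inl ⟨hz.1, h⟩
    · exact Or.inr ⟨hz.1, h⟩
  refine le_trans (Finset.card_le_card h5) (le_trans (Finset.card_union_le _ _) (Nat.add_le_add ?_ ?_))
  · refine Finset.card_le_card_of_injOn (fun z => z.1) ?_ ?_
    · intro z hz
      have hz' := Finset.mem_filter.mp (Finset.mem_coe.mp hz)
      obtain ⟨hz1, hz2⟩ := Finset.mem_product.mp hz'.1
      have hz1' := Finset.mem_filter.mp hz1
      have hz2' := Finset.mem_filter.mp hz2
      refine Finset.mem_coe.mpr (Finset.mem_filter.mpr ⟨hz1'.1, hz1'.2, ?_⟩)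
      rw [← hz'.2]
      exact hz2'.2
    · intro z hz z' hz' hzz
      have h6 := (Finset.mem_filter.mp (Finset.mem_coe.mp hz)).2
      have h7 := (Finset.mem_filter.mp (Finset.mem_coe.mp hz')).2
      have h8 : z.1 = z'.1 := hzz
      refine Prod.ext h8 ?_
      omega
  · refine Finset.card_le_card_of_injOn (fun z => z.1) ?_ ?_
    · intro z hz
      have hz' := Finset.mem_filter.mp (Finset.mem_coe.mp hz)
      obtain ⟨hz1, hz2⟩ := Finset.mem_product.mp hz'.1
      have hz1' := Finset.mem_filter.mp hz1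
      have hz2' := Finset.mem_filter.mp hz2
      refine Finset.mem_coe.mpr (Finset.mem_filter.mpr ⟨hz1'.1, hz1'.2, z.2, hz'.2, ?_⟩)
      exact hz2'.2
    · intro z hz z' hz' hzz
      have h6 := (Finset.mem_filter.mp (Finset.mem_coe.mp hz)).2
      have h7 := (Finset.mem_filter.mp (Finset.mem_coe.mp hz')).2
      have h8 : z.1 = z'.1 := hzz
      refine Prod.ext h8 ?_
      omega

lemma LRA_sum (p q R : ℕ) (S : Finset ℕ) (hS : S ⊆ range R) :
    (p : ℝ) * ((#S : ℝ) - p * q) ≤ ∑ s ∈ range R, (#(LRA_A p q S s) : ℝ) := by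
  classical
  have h1 : ∑ s ∈ range R, #(LRA_A p q S s) = ∑ x ∈ range p, #{s ∈ range R | s + q * x ∈ S} :=
    Finset.sum_card_bipartiteAbove_eq_sum_card_bipartiteBelow _
  have h2 : ∀ x ∈ range p, (#S : ℝ) - p * q ≤ (#{s ∈ range R | s + q * x ∈ S} : ℝ) := by
    intro x hx
    have hx' := Finset.mem_range.mp hx
    have h3 : #S ≤ #{s ∈ range R | s + q * x ∈ S} + #(range (q * x)) := by
      have h4 : #{u ∈ S | q * x ≤ u} ≤ #{s ∈ range R | s + q * x ∈ S} := by
        refine Finset.card_le_card_of_injOn (fun u => u - q * x) ?_ ?_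
        · intro u hu
          have hu' := Finset.mem_filter.mp (Finset.mem_coe.mp hu)
          refine Finset.mem_coe.mpr (Finset.mem_filter.mpr ⟨?_, ?_⟩)
          · have := Finset.mem_range.mp (hS hu'.1)
            exact Finset.mem_range.mpr (by show u - q * x < R; omega)
          · show u - q * x + q * x ∈ S
            rw [Nat.sub_add_cancel hu'.2]
            exact hu'.1
        · intro u hu v hv huv
          have hu' := (Finset.mem_filter.mp (Finset.mem_coe.mp hu)).2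
          have hv' := (Finset.mem_filter.mp (Finset.mem_coe.mp hv)).2
          have huv' : u - q * x = v - q * x := huv
          omega
      have h5 : #{u ∈ S | ¬ q * x ≤ u} ≤ #(range (q * x)) := by
        refine Finset.card_le_card ?_
        intro u hu
        have hu' := (Finset.mem_filter.mp hu).2
        exact Finset.mem_range.mpr (by omega)
      have h6 := Finset.card_filter_add_card_filter_not (s := S) (fun u => q * x ≤ u)
      omega
    rw [Finset.card_range] at h3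
    have h4 : q * x ≤ p * q := by
      rw [Nat.mul_comm p q]
      exact Nat.mul_le_mul_left q hx'.le
    have h5 : (#S : ℝ) ≤ (#{s ∈ range R | s + q * x ∈ S} : ℝ) + p * q := by
      exact_mod_cast le_trans h3 (Nat.add_le_add_left h4 _)
    linarith
  have h3 := Finset.card_nsmul_le_sum (range p) _ _ h2
  rw [Finset.card_range, nsmul_eq_mul] at h3
  have h4 : ∑ s ∈ range R, (#(LRA_A p q S s) : ℝ) = ∑ x ∈ range p, (#{s ∈ range R | s + q * x ∈ S} : ℝ) := by
    exact_mod_cast h1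
  rw [h4]
  exact h3

lemma LRA_X (e : ℝ) (he : 0 < e) (p q R : ℕ) (hp : 1 ≤ p) (hR : 1 ≤ R) (S : Finset ℕ) (hpq : 16 * ((p : ℝ) * q) ≤ e * R)
    (hS : S ⊆ range R) (hSe : e * R ≤ #S) :
    e * R / 8 ≤ (#{s ∈ range R | ((#S : ℝ) / R - e / 4) * p ≤ #(LRA_A p q S s)} : ℝ) := by
  classical
  have hR0 : (0 : ℝ) < R := by exact_mod_cast hR
  have hp0 : (0 : ℝ) < p := by exact_mod_cast hp
  have hc : 0 ≤ (#S : ℝ) / R - e / 4 := by
    have h1 : e ≤ (#S : ℝ) / R := by
      rw [le_div_iff₀ hR0]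
      exact hSe
    linarith
  have h1 := LRA_sum p q R S hS
  have h2 : ∀ s ∈ range R, (#(LRA_A p q S s) : ℝ) ≤
      (if ((#S : ℝ) / R - e / 4) * p ≤ #(LRA_A p q S s) then (p : ℝ) else 0) + ((#S : ℝ) / R - e / 4) * p := by
    intro s _
    have h3 : (#(LRA_A p q S s) : ℝ) ≤ p := by
      have h4 := Finset.card_le_card (LRA_A_sub p q S s)
      rw [Finset.card_range] at h4
      exact_mod_cast h4
    have h4 : 0 ≤ ((#S : ℝ) / R - e / 4) * p := mul_nonneg hc hp0.le
    split_ifs with h5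
    · linarith
    · have := not_le.mp h5
      linarith
  have h3 := Finset.sum_le_sum h2
  rw [Finset.sum_add_distrib, Finset.sum_const, Finset.card_range, nsmul_eq_mul, ← Finset.sum_filter, Finset.sum_const, nsmul_eq_mul] at h3
  have h4 : (R : ℝ) * (((#S : ℝ) / R - e / 4) * p) = p * (#S) - e / 4 * (R * p) := by
    field_simp
  rw [h4] at h3
  have h5 : (p : ℝ) * ((#S : ℝ) - p * q) ≤
      (#{s ∈ range R | ((#S : ℝ) / R - e / 4) * p ≤ #(LRA_A p q S s)} : ℝ) * p + (p * (#S) - e / 4 * (R * p)) := le_trans h1 h3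
  have h6 : (p : ℝ) * (e / 4 * R - p * q) ≤
      (p : ℝ) * (#{s ∈ range R | ((#S : ℝ) / R - e / 4) * p ≤ #(LRA_A p q S s)} : ℝ) := by linarith
  have h7 := le_of_mul_le_mul_left h6 hp0
  linarith

lemma LRA_pairs (R : ℕ) (X X' : Finset ℕ) (hX : X ⊆ range R) (hX' : X' ⊆ range R) :
    #X * #X' ≤ ∑ w ∈ Ico (-(R : ℤ)) R, #(X.filter (fun s : ℕ => 0 ≤ (s : ℤ) + w ∧ ((s : ℤ) + w).toNat ∈ X')) := by
  classical
  have h1 : ∑ w ∈ Ico (-(R : ℤ)) R, #(X.filter (fun s : ℕ => 0 ≤ (s : ℤ) + w ∧ ((s : ℤ) + w).toNat ∈ X')) =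
      ∑ s ∈ X, #{w ∈ Ico (-(R : ℤ)) R | 0 ≤ (s : ℤ) + w ∧ ((s : ℤ) + w).toNat ∈ X'} :=
    (Finset.sum_card_bipartiteAbove_eq_sum_card_bipartiteBelow
      (fun (s : ℕ) (w : ℤ) => 0 ≤ (s : ℤ) + w ∧ ((s : ℤ) + w).toNat ∈ X')).symm
  rw [h1]
  have h2 : ∀ s ∈ X, #X' ≤ #{w ∈ Ico (-(R : ℤ)) R | 0 ≤ (s : ℤ) + w ∧ ((s : ℤ) + w).toNat ∈ X'} := by
    intro s hs
    refine Finset.card_le_card_of_injOn (fun v => (v : ℤ) - s) ?_ ?_
    · intro v hv
      have hv' := Finset.mem_coe.mp hv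
      have h3 := Finset.mem_range.mp (hX hs)
      have h4 := Finset.mem_range.mp (hX' hv')
      refine Finset.mem_coe.mpr (Finset.mem_filter.mpr ⟨Finset.mem_Ico.mpr ⟨?_, ?_⟩, ?_, ?_⟩)
      · show -(R : ℤ) ≤ (v : ℤ) - s
        omega
      · show (v : ℤ) - s < R
        omega
      · show 0 ≤ (s : ℤ) + ((v : ℤ) - s)
        omega
      · show ((s : ℤ) + ((v : ℤ) - s)).toNat ∈ X'
        have h5 : ((s : ℤ) + ((v : ℤ) - s)).toNat = v := by omega
        rw [h5]
        exact hv'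
    · intro v _ v' _ hvv
      have h3 : (v : ℤ) - s = (v' : ℤ) - s := hvv
      omega
  have h3 := Finset.card_nsmul_le_sum X _ _ h2
  simpa using h3

theorem LRA (h : PPS_stmt) : LRA_stmt := by
  classical
  intro e he he1
  obtain ⟨p₀, hp₀⟩ := exists_nat_ge (8 / e)
  refine ⟨e ^ 2 / 128, e ^ 4 / 16384, by positivity, by positivity, p₀, ?_⟩
  intro p hp hpp q R S S' l hq hR hpq hS hS' hSe hSe' hl hl1
  have hR0 : (0 : ℝ) < R := by exact_mod_cast hR
  have hp1 : 1 ≤ p := hp.one_lt.le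
  have hp0 : (0 : ℝ) < p := by exact_mod_cast hp1
  have hpe : 8 ≤ e * p := by
    have h1 : (8 / e : ℝ) ≤ p := le_trans hp₀ (by exact_mod_cast hpp)
    rw [div_le_iff₀ he] at h1
    linarith
  have hX := LRA_X e he p q R hp1 hR S hpq hS hSe
  have hX' := LRA_X e he p q R hp1 hR S' hpq hS' hSe'
  set X : Finset ℕ := {s ∈ range R | ((#S : ℝ) / R - e / 4) * p ≤ #(LRA_A p q S s)} with hXdef
  set X' : Finset ℕ := {s ∈ range R | ((#S' : ℝ) / R - e / 4) * p ≤ #(LRA_A p q S' s)} with hX'def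
  have hXR : X ⊆ range R := Finset.filter_subset _ _
  have hX'R : X' ⊆ range R := Finset.filter_subset _ _
  have hpairs := LRA_pairs R X X' hXR hX'R
  set Sg : ℤ → Finset ℕ := fun w => X.filter (fun s : ℕ => 0 ≤ (s : ℤ) + w ∧ ((s : ℤ) + w).toNat ∈ X') with hSg
  set Ω : Finset ℤ := {w ∈ Ico (-(R : ℤ)) R | e ^ 2 * R / 256 ≤ (#(Sg w) : ℝ)} with hΩ
  refine ⟨Ω, Finset.filter_subset _ _, ?_, ?_⟩
  · have h1 : ((#X : ℝ) * #X') ≤ ∑ w ∈ Ico (-(R : ℤ)) R, (#(Sg w) : ℝ) := by exact_mod_cast hpairs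
    have h2 : ∀ w ∈ Ico (-(R : ℤ)) R, (#(Sg w) : ℝ) ≤
        (if e ^ 2 * R / 256 ≤ (#(Sg w) : ℝ) then (R : ℝ) else 0) + e ^ 2 * R / 256 := by
      intro w _
      have h3 : (#(Sg w) : ℝ) ≤ R := by
        have h4 : #(Sg w) ≤ #(range R) := Finset.card_le_card ((Finset.filter_subset _ _).trans hXR)
        rw [Finset.card_range] at h4
        exact_mod_cast h4
      have h4 : 0 ≤ e ^ 2 * R / 256 := by positivity
      split_ifs with h5
      · linarith
      · have := not_le.mp h5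
        linarith
    have h3 := Finset.sum_le_sum h2
    rw [Finset.sum_add_distrib, Finset.sum_const, nsmul_eq_mul, ← Finset.sum_filter, Finset.sum_const, nsmul_eq_mul] at h3
    have h4 : (#(Ico (-(R : ℤ)) R) : ℝ) = 2 * R := by
      rw [Int.card_Ico]
      have h5 : ((R : ℤ) - -(R : ℤ)).toNat = 2 * R := by omega
      rw [h5]
      push_cast
      ring
    rw [h4] at h3
    have h5 : (e * R / 8) * (e * R / 8) ≤ (#X : ℝ) * #X' := mul_le_mul hX hX' (by positivity) (by positivity)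
    have h6 : (e * R / 8) * (e * R / 8) ≤ (#Ω : ℝ) * R + 2 * R * (e ^ 2 * R / 256) := le_trans h5 (le_trans h1 h3)
    have h7 : (R : ℝ) * (e ^ 2 / 128 * R) ≤ R * #Ω := by nlinarith
    exact le_of_mul_le_mul_left h7 hR0
  · intro w hw
    have hw' := (Finset.mem_filter.mp hw).2
    have hne : (Sg w).Nonempty := by
      rw [← Finset.card_pos]
      have h1 : 0 < e ^ 2 * R / 256 := by positivity
      exact_mod_cast lt_of_lt_of_le h1 hw'
    set t : ℕ := ⌈e * p / 8⌉₊ with ht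
    have ht1 : 1 ≤ t := Nat.ceil_pos.mpr (by positivity)
    have ht2 : e * p / 8 ≤ t := Nat.le_ceil _
    have ht3 : (t : ℝ) ≤ e * p / 4 := by
      have h1 : (t : ℝ) < e * p / 8 + 1 := Nat.ceil_lt_add_one (by positivity)
      linarith
    have key := h p hp ℕ (Sg w) (fun s => LRA_A p q S s) (fun s => LRA_A p q S' ((s : ℤ) + w).toNat) t (l - e / 2) (e / 8)
      hne ht1 (by linarith) (by linarith) (by
        intro s hs
        have hs' := Finset.mem_filter.mp hs
        have h1 := (Finset.mem_filter.mp hs'.1).2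
        have h2 := (Finset.mem_filter.mp hs'.2.2).2
        have h3 : e ≤ (#S : ℝ) / R := by
          rw [le_div_iff₀ hR0]
          exact hSe
        have h4 : e ≤ (#S' : ℝ) / R := by
          rw [le_div_iff₀ hR0]
          exact hSe'
        have h5 : l ≤ (#S : ℝ) / R + (#S' : ℝ) / R := by
          rw [← add_div, le_div_iff₀ hR0]
          exact hl
        refine ⟨LRA_A_sub _ _ _ _, LRA_A_sub _ _ _ _, ?_, ?_, ?_⟩
        · have h6 : (t : ℝ) ≤ #(LRA_A p q S s) := by nlinarith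
          exact_mod_cast h6
        · have h6 : (t : ℝ) ≤ #(LRA_A p q S' ((s : ℤ) + w).toNat) := by nlinarith
          exact_mod_cast h6
        · nlinarith)
    have h1 : (l - e) * p ≤ (l - e / 2 - e / 8) * p - t := by nlinarith
    refine le_trans h1 (le_trans key ?_)
    refine Nat.cast_le.mpr (Finset.card_le_card ?_)
    intro d hd
    have hd' := Finset.mem_filter.mp hd
    refine Finset.mem_filter.mpr ⟨hd'.1, ?_⟩
    have h2 := LRA_rd p q d S S' (Sg w) w (fun s hs => (Finset.mem_filter.mp hs).2.1)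
    have h3 : ∑ s ∈ Sg w, (rd p (LRA_A p q S s) (LRA_A p q S' ((s : ℤ) + w).toNat) d : ℝ) ≤
      p * ct S S' (w + q * (d : ℕ)) + p * ct S S' (w + q * (d : ℕ) - q * p) := by exact_mod_cast h2
    have h4 : (e / 8) * ((e ^ 2 * R / 256) * (e * p / 8)) ≤ e / 8 * (#(Sg w) * t) := by
      refine mul_le_mul_of_nonneg_left ?_ (by positivity)
      exact mul_le_mul hw' ht2 (by positivity) (by positivity)
    have h5 : (p : ℝ) * (e ^ 4 / 16384 * R) ≤ p * ((ct S S' (w + q * (d : ℕ)) : ℝ) + ct S S' (w + q * (d : ℕ) - q * p)) := by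
      have h6 := hd'.2
      nlinarith
    exact le_of_mul_le_mul_left h5 hp0

end Pool.Agent.HF
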